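import Pool.Agent.H828R3.GP.Main

/-!
Wiggin's maps `F_D`: a uniform power saving with an explicit exponent, for every `D ≥ 2`.
-/

set_option autoImplicit false

namespace Pool.Agent.Results.MP_5317dd_nt.PowerSaving

open Filter Topology
open Pool.Agent.H319R3.GC (Adm Tm PP)

/-- Wiggin's map `F_D`. -/
def F (D x : ℕ) : ℕ :=
  if x % D = 0 then x / D
  else if x % D = D - 1 then (D + 1) * x + 1
  else (D + 1) * x - x % D

/-- `n` descends below `D` under iteration of `F_D`. -/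
def Desc (D n : ℕ) : Prop := ∃ k : ℕ, (F D)^[k] n < D

/-- multipliers -/
def mD (D : ℕ) : ℕ → ℤ := fun i => if i = 0 then 1 else (D : ℤ) + 1

/-- offsets -/
def rD (D : ℕ) : ℕ → ℤ := fun i => if i = 0 then 0 else if i = D - 1 then -1 else (i : ℤ)

theorem prod_eq (D : ℕ) : PP (D + 1) (mD (D + 1)) = (D + 2) ^ D := by
  unfold PP
  rw [Finset.prod_range_succ']
  have h1 : ∀ i ∈ Finset.range D, (mD (D + 1) (i + 1)).natAbs = D + 2 := by
    intro i _
    simp only [mD]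
    rw [if_neg (by omega)]
    omega
  rw [Finset.prod_congr rfl h1]
  simp [mD]

theorem pow_lt (D : ℕ) (hD : 1 ≤ D) : (D + 2) ^ D < (D + 1) ^ (D + 1) := by
  rcases Nat.lt_or_ge D 2 with h | h
  · have : D = 1 := by omega
    subst this; norm_num
  · have hDR : (2 : ℝ) ≤ D := by exact_mod_cast h
    have h1 : (1 + 1 / ((D : ℝ) + 1)) ^ D ≤ Real.exp 1 := by
      have h2 : 1 + 1 / ((D : ℝ) + 1) ≤ Real.exp (1 / ((D : ℝ) + 1)) := by
        have := Real.add_one_le_exp (1 / ((D : ℝ) + 1)); linarith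
      calc (1 + 1 / ((D : ℝ) + 1)) ^ D ≤ Real.exp (1 / ((D : ℝ) + 1)) ^ D :=
            pow_le_pow_left₀ (by positivity) h2 D
        _ = Real.exp (D * (1 / ((D : ℝ) + 1))) := by rw [← Real.exp_nat_mul]
        _ ≤ Real.exp 1 := by
          apply Real.exp_le_exp.2
          rw [mul_one_div, div_le_one (by positivity)]
          linarith
    have h3 : Real.exp 1 < 3 := by
      have := Real.exp_one_lt_d9; linarith
    have h4 : ((D : ℝ) + 2) ^ D < ((D : ℝ) + 1) ^ (D + 1) := by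
      have e : (D : ℝ) + 2 = ((D : ℝ) + 1) * (1 + 1 / ((D : ℝ) + 1)) := by
        field_simp; ring
      rw [e, mul_pow, pow_succ]
      apply mul_lt_mul_of_pos_left _ (by positivity)
      linarith
    exact_mod_cast h4

theorem adm (D : ℕ) (hD : 2 ≤ D) : Adm D (mD D) (rD D) := by
  obtain ⟨e, rfl⟩ : ∃ e, D = e + 1 := ⟨D - 1, by omega⟩
  refine ⟨hD, ?_, ?_, ?_, ?_⟩
  · intro i _
    simp only [mD]
    split_ifs
    · exact isCoprime_one_left
    · exact ⟨1, -1, by ring⟩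
  · intro i hi
    simp only [mD, rD]
    split_ifs with h0 h1
    · subst h0; simp
    · have : (i : ℤ) = ((e + 1 : ℕ) : ℤ) - 1 := by omega
      rw [this]
      exact ⟨((e + 1 : ℕ) : ℤ), by ring⟩
    · exact ⟨i, by ring⟩
  · rw [prod_eq]; exact pow_lt e (by omega)
  · rw [prod_eq]
    calc 2 ≤ (e + 2) ^ 1 := by rw [pow_one]; omega
      _ ≤ (e + 2) ^ e := Nat.pow_le_pow_right (by omega) (by omega)

/-- the terms of the orbit of the accelerated map are terms of the orbit of `F_D` -/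
theorem F_Tm (D : ℕ) (hD : 2 ≤ D) (n : ℕ) (hn : 1 ≤ n) :
    ∃ i : ℕ, 1 ≤ (F D)^[i] n ∧ Tm D (mD D) (rD D) (n : ℤ) = (((F D)^[i] n : ℕ) : ℤ) := by
  have hD0 : (0 : ℤ) < D := by exact_mod_cast (by omega : 0 < D)
  have hmod : ((n : ℤ) % (D : ℤ)).toNat = n % D := by
    rw [← Int.natCast_mod, Int.toNat_natCast]
  obtain ⟨q, j, hj, rfl⟩ : ∃ q j, j < D ∧ n = D * q + j :=
    ⟨n / D, n % D, Nat.mod_lt _ (by omega), (Nat.div_add_mod n D).symm⟩
  have hmj : (D * q + j) % D = j := by rw [Nat.mul_add_mod, Nat.mod_eq_of_lt hj]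
  rw [hmj] at hmod
  unfold Tm
  rw [hmod]
  have hFm : ∀ t : ℕ, F D (D * t) = t := by
    intro t
    unfold F
    rw [if_pos (Nat.mul_mod_right D t), Nat.mul_div_cancel_left _ (by omega)]
  rcases Nat.eq_zero_or_pos j with h0 | h0
  · subst h0
    refine ⟨1, ?_, ?_⟩
    · rw [Function.iterate_one, Nat.add_zero, hFm]
      rcases Nat.eq_zero_or_pos q with h | h
      · subst h; simp at hn
      · exact h
    · rw [Function.iterate_one, Nat.add_zero, hFm]
      simp only [mD, rD, if_true]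
      push_cast
      rw [one_mul, sub_zero, Int.mul_ediv_cancel_left _ hD0.ne']
  · by_cases h1 : j = D - 1
    · have hF : F D (D * q + j) = D * (D * (q + 1) + q) := by
        unfold F
        rw [hmj, if_neg (by omega), if_pos h1, h1]
        obtain ⟨d, rfl⟩ : ∃ d, D = d + 1 := ⟨D - 1, by omega⟩
        simp only [Nat.add_sub_cancel]
        ring
      refine ⟨2, ?_, ?_⟩
      · rw [Function.iterate_succ_apply, Function.iterate_one, hF, hFm]
        have : 1 ≤ D * (q + 1) := Nat.mul_pos (by omega) (by omega)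
        omega
      · rw [Function.iterate_succ_apply, Function.iterate_one, hF, hFm]
        simp only [mD, rD]
        rw [if_neg (by omega), if_neg (by omega), if_pos h1]
        have hjz : (j : ℤ) = D - 1 := by omega
        push_cast
        rw [hjz]
        have e : ((D : ℤ) + 1) * (D * q + (D - 1)) - -1 = D * (D * (q + 1) + q) := by ring
        rw [e, Int.mul_ediv_cancel_left _ hD0.ne']
    · have hF : F D (D * q + j) = D * (D * q + j + q) := by
        unfold F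
        rw [hmj, if_neg (by omega), if_neg h1]
        have : (D + 1) * (D * q + j) = D * (D * q + j + q) + j := by ring
        omega
      refine ⟨2, ?_, ?_⟩
      · rw [Function.iterate_succ_apply, Function.iterate_one, hF, hFm]
        omega
      · rw [Function.iterate_succ_apply, Function.iterate_one, hF, hFm]
        simp only [mD, rD]
        rw [if_neg (by omega), if_neg (by omega), if_neg h1]
        push_cast
        have e : ((D : ℤ) + 1) * (D * q + j) - j = D * (D * q + j + q) := by ring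
        rw [e, Int.mul_ediv_cancel_left _ hD0.ne']

theorem F_Tm_iter (D : ℕ) (hD : 2 ≤ D) (n : ℕ) (hn : 1 ≤ n) (k : ℕ) :
    ∃ i : ℕ, 1 ≤ (F D)^[i] n ∧ (Tm D (mD D) (rD D))^[k] (n : ℤ) = (((F D)^[i] n : ℕ) : ℤ) := by
  induction k with
  | zero => exact ⟨0, hn, rfl⟩
  | succ k ih =>
    obtain ⟨i, h1, h2⟩ := ih
    obtain ⟨j, h3, h4⟩ := F_Tm D hD _ h1
    rw [← Function.iterate_add_apply] at h3 h4
    exact ⟨j + i, h3, by rw [Function.iterate_succ_apply', h2, h4]⟩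

/-- the exponent condition with `s = 1/2` -/
theorem sum_le (D : ℕ) (hD : 2 ≤ D) :
    ∑ j ∈ Finset.range D, (|(mD D j : ℝ)| / D) ^ (1 / 2 : ℝ) ≤ (D : ℝ) - 1 / 25 := by
  obtain ⟨e, rfl⟩ : ∃ e, D = e + 1 := ⟨D - 1, by omega⟩
  rw [Finset.sum_range_succ']
  have heR : (1 : ℝ) ≤ e := by exact_mod_cast (by omega : 1 ≤ e)
  have hx : (0 : ℝ) < (e : ℝ) + 1 := by linarith
  have h1 : ∀ i ∈ Finset.range e, (|(mD (e + 1) (i + 1) : ℝ)| / ((e + 1 : ℕ) : ℝ)) ^ (1 / 2 : ℝ) ≤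
      1 + 1 / (2 * ((e : ℝ) + 1)) := by
    intro i _
    simp only [mD]
    rw [if_neg (by omega), ← Real.sqrt_eq_rpow, Real.sqrt_le_left (by positivity)]
    push_cast
    rw [abs_of_pos (by positivity), div_le_iff₀ hx]
    have h2 : (1 + 1 / (2 * ((e : ℝ) + 1))) ^ 2 * ((e : ℝ) + 1)
        = (e : ℝ) + 1 + 1 + 1 / (4 * ((e : ℝ) + 1)) := by
      field_simp; ring
    rw [h2]
    have : 0 ≤ 1 / (4 * ((e : ℝ) + 1)) := by positivity
    linarith
  have h2 := Finset.sum_le_sum h1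
  rw [Finset.sum_const, Finset.card_range, nsmul_eq_mul] at h2
  have h3 : (|(mD (e + 1) 0 : ℝ)| / ((e + 1 : ℕ) : ℝ)) ^ (1 / 2 : ℝ) = √(1 / ((e : ℝ) + 1)) := by
    rw [Real.sqrt_eq_rpow]; simp [mD]
  rw [h3]
  set u := √(1 / ((e : ℝ) + 1)) with hu
  have hu0 : 0 ≤ u := Real.sqrt_nonneg _
  have hu2 : u ^ 2 = 1 / ((e : ℝ) + 1) := Real.sq_sqrt (by positivity)
  have hule : u ≤ 0.7072 := by
    rw [hu, Real.sqrt_le_left (by norm_num), div_le_iff₀ hx]
    nlinarith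
  have h4 : (e : ℝ) * (1 + 1 / (2 * ((e : ℝ) + 1))) = e + 1 / 2 - u ^ 2 / 2 := by
    rw [hu2]; field_simp; ring
  rw [h4] at h2
  push_cast at h2 ⊢
  have h5 : 0 ≤ (0.7072 - u) * (1.2928 - u) :=
    mul_nonneg (by linarith) (by linarith)
  have h6 : u ≤ 0.46 + u ^ 2 / 2 := by
    norm_num at h5 ⊢
    nlinarith
  norm_num at h6 ⊢
  norm_num at h2
  linarith

theorem exp_ok (D : ℕ) (hD : 2 ≤ D) : ∃ η : ℝ, 0 ≤ η ∧ η < 1 - 1 / (30 * D * Real.log D) ∧
    ∑ j ∈ Finset.range D, (|(mD D j : ℝ)| / D) ^ (1 / 2 : ℝ) ≤ (D : ℝ) ^ η := by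
  have hDR : (2 : ℝ) ≤ D := by exact_mod_cast hD
  have hD0 : (0 : ℝ) < D := by linarith
  have hlog : 0 < Real.log D := Real.log_pos (by linarith)
  set S : ℝ := (D : ℝ) - 1 / 25 with hS
  have hS1 : 1 < S := by rw [hS]; linarith
  refine ⟨Real.log S / Real.log D, div_nonneg (Real.log_nonneg hS1.le) hlog.le, ?_, ?_⟩
  · rw [div_lt_iff₀ hlog]
    have h1 : Real.log S = Real.log D + Real.log (1 - 1 / (25 * D)) := by
      rw [← Real.log_mul hD0.ne']
      · congr 1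
        rw [hS]; field_simp
      · have : 1 / (25 * (D : ℝ)) ≤ 1 / 50 := by
          apply one_div_le_one_div_of_le (by norm_num); linarith
        linarith
    have h2 : Real.log (1 - 1 / (25 * (D : ℝ))) ≤ - (1 / (25 * D)) := by
      have h5 : 1 / (25 * (D : ℝ)) ≤ 1 / 50 := by
        apply one_div_le_one_div_of_le (by norm_num); linarith
      have := Real.log_le_sub_one_of_pos (show (0 : ℝ) < 1 - 1 / (25 * (D : ℝ)) by linarith)
      linarith
    have h3 : (1 - 1 / (30 * D * Real.log D)) * Real.log D = Real.log D - 1 / (30 * D) := by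
      field_simp
    rw [h3, h1]
    have h4 : 1 / (30 * (D : ℝ)) < 1 / (25 * D) := by
      apply one_div_lt_one_div_of_lt (by positivity); linarith
    linarith
  · refine (sum_le D hD).trans (le_of_eq ?_)
    rw [Real.rpow_def_of_pos hD0, mul_div_cancel₀ _ hlog.ne', Real.exp_log (by linarith)]

theorem power (D : ℕ) (hD : 2 ≤ D) : ∃ C : ℝ, 0 < C ∧ ∀ X y : ℝ, 1 ≤ X → 1 ≤ y →
    ({n : ℕ | 1 ≤ n ∧ (n : ℝ) ≤ X ∧ ∀ k : ℕ, y < (((F D)^[k] n : ℕ) : ℝ)}.ncard : ℝ)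
      ≤ C * X / y ^ (1 / (30 * D * Real.log D)) := by
  have hDR : (2 : ℝ) ≤ D := by exact_mod_cast hD
  have hlog : 0 < Real.log D := Real.log_pos (by linarith)
  obtain ⟨η, h0, h1, h2⟩ := exp_ok D hD
  have hc : 0 < 1 / (30 * D * Real.log D) := by positivity
  obtain ⟨C, hC, h⟩ := Pool.Agent.H828R3.GP.power_saving (adm D hD) (s := 1 / 2) (η := η)
    (by norm_num) h0 (by linarith) h2 (c := 1 / (30 * D * Real.log D)) hc (by linarith)
  refine ⟨C, hC, fun X y hX hy => le_trans ?_ (h X y hX hy)⟩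
  have hfin : {x : ℤ | |(x : ℝ)| ≤ X ∧
      ∀ k : ℕ, y < |(((Tm D (mD D) (rD D))^[k] x : ℤ) : ℝ)|}.Finite := by
    apply (Set.finite_Icc (-⌈X⌉) ⌈X⌉).subset
    rintro x ⟨hx, -⟩
    have h1 := abs_le.1 hx
    have h2 := Int.le_ceil X
    rw [Set.mem_Icc]
    constructor
    · have : (-(⌈X⌉ : ℤ) : ℝ) ≤ x := by linarith
      exact_mod_cast this
    · have : (x : ℝ) ≤ (⌈X⌉ : ℤ) := by linarith
      exact_mod_cast this
  have hsub : ((fun n : ℕ => (n : ℤ)) '' {n : ℕ | 1 ≤ n ∧ (n : ℝ) ≤ X ∧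
      ∀ k : ℕ, y < (((F D)^[k] n : ℕ) : ℝ)}) ⊆
      {x : ℤ | |(x : ℝ)| ≤ X ∧ ∀ k : ℕ, y < |(((Tm D (mD D) (rD D))^[k] x : ℤ) : ℝ)|} := by
    rintro _ ⟨n, ⟨hn1, hnX, hn⟩, rfl⟩
    refine ⟨?_, fun k => ?_⟩
    · simpa using hnX
    · simp only
      obtain ⟨i, _, hi⟩ := F_Tm_iter D hD n hn1 k
      rw [hi, Int.cast_natCast, abs_of_nonneg (Nat.cast_nonneg _)]
      exact hn i
  have h2 := Set.ncard_le_ncard hsub hfin
  rw [Set.ncard_image_of_injective _ Nat.cast_injective] at h2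
  exact_mod_cast h2

/-- **Main theorem.** -/
theorem result (D : ℕ) (hD : 2 ≤ D) :
    (∃ C : ℝ, 0 < C ∧ ∀ X y : ℝ, 1 ≤ X → 1 ≤ y →
      ({n : ℕ | 1 ≤ n ∧ (n : ℝ) ≤ X ∧ ∀ k : ℕ, y < (((F D)^[k] n : ℕ) : ℝ)}.ncard : ℝ)
        ≤ C * X / y ^ (1 / (30 * D * Real.log D)) ∧
      ((∀ m : ℕ, 1 ≤ m → (m : ℝ) ≤ y → Desc D m) →
        ({n : ℕ | 1 ≤ n ∧ (n : ℝ) ≤ X ∧ ¬ Desc D n}.ncard : ℝ)
          ≤ C * X / y ^ (1 / (30 * D * Real.log D)))) ∧
    (∀ φ : ℕ → ℝ, Tendsto φ atTop atTop →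
      Tendsto (fun N : ℕ => ({n : ℕ | 1 ≤ n ∧ n ≤ N ∧
          ∃ k : ℕ, (((F D)^[k] n : ℕ) : ℝ) ≤ φ n}.ncard : ℝ) / N) atTop (𝓝 1)) := by
  have hDR : (2 : ℝ) ≤ D := by exact_mod_cast hD
  have hlog : 0 < Real.log D := Real.log_pos (by linarith)
  have hc : 0 < 1 / (30 * D * Real.log D) := by positivity
  obtain ⟨C, hC, hb⟩ := power D hD
  constructor
  · refine ⟨C, hC, fun X y hX hy => ⟨hb X y hX hy, fun hver => le_trans ?_ (hb X y hX hy)⟩⟩
    have hfin : {n : ℕ | 1 ≤ n ∧ (n : ℝ) ≤ X ∧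
        ∀ k : ℕ, y < (((F D)^[k] n : ℕ) : ℝ)}.Finite := by
      refine (Set.finite_Icc 1 ⌊X⌋₊).subset fun n hn => ⟨hn.1, ?_⟩
      exact Nat.le_floor hn.2.1
    have hsub : {n : ℕ | 1 ≤ n ∧ (n : ℝ) ≤ X ∧ ¬ Desc D n} ⊆
        {n : ℕ | 1 ≤ n ∧ (n : ℝ) ≤ X ∧ ∀ k : ℕ, y < (((F D)^[k] n : ℕ) : ℝ)} := by
      rintro n ⟨h1, h2, h3⟩
      refine ⟨h1, h2, fun k => ?_⟩
      by_contra hk
      rcases Nat.eq_zero_or_pos ((F D)^[k] n) with h0 | h0
      · exact h3 ⟨k, by omega⟩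
      · obtain ⟨i, hi⟩ := hver _ h0 (not_lt.1 hk)
        rw [← Function.iterate_add_apply] at hi
        exact h3 ⟨_, hi⟩
    exact_mod_cast Set.ncard_le_ncard hsub hfin
  · intro φ hφ
    rw [Metric.tendsto_atTop]
    intro ε hε
    obtain ⟨y, hy1, hyε⟩ : ∃ y : ℝ, 1 ≤ y ∧ C / y ^ (1 / (30 * D * Real.log D)) < ε / 2 := by
      have h1 : Tendsto (fun y : ℝ => C / y ^ (1 / (30 * D * Real.log D))) atTop (𝓝 0) :=
        tendsto_const_nhds.div_atTop (tendsto_rpow_atTop hc)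
      have h2 := h1.eventually (gt_mem_nhds (show (0 : ℝ) < ε / 2 by positivity))
      obtain ⟨y, hy⟩ := (h2.and (eventually_ge_atTop (1 : ℝ))).exists
      exact ⟨y, hy.2, hy.1⟩
    obtain ⟨n0, hn0⟩ := Filter.tendsto_atTop_atTop.1 hφ y
    obtain ⟨N0, hN0⟩ := exists_nat_gt (2 * n0 / ε)
    refine ⟨N0 + 1, fun N hN => ?_⟩
    have hNpos : 0 < N := by omega
    have hNR : (0 : ℝ) < N := by exact_mod_cast hNpos
    set Good := {n : ℕ | 1 ≤ n ∧ n ≤ N ∧ ∃ k : ℕ, (((F D)^[k] n : ℕ) : ℝ) ≤ φ n} with hGood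
    set Bad := {n : ℕ | 1 ≤ n ∧ (n : ℝ) ≤ (N : ℝ) ∧
      ∀ k : ℕ, y < (((F D)^[k] n : ℕ) : ℝ)} with hBad
    have hfinAll : (Set.Icc 1 N).Finite := Set.finite_Icc 1 N
    have hGsub : Good ⊆ Set.Icc 1 N := fun n hn => ⟨hn.1, hn.2.1⟩
    have hcardAll : (Set.Icc 1 N).ncard = N := by
      rw [← Finset.coe_Icc, Set.ncard_coe_finset, Nat.card_Icc]; omega
    have hupper : Good.ncard ≤ N := by
      rw [← hcardAll]; exact Set.ncard_le_ncard hGsub hfinAll
    have hBfin : Bad.Finite := hfinAll.subset (fun n hn => ⟨hn.1, by exact_mod_cast hn.2.1⟩)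
    have hcover : Set.Icc 1 N ⊆ Good ∪ (Bad ∪ Set.Iio n0) := by
      intro n hn
      by_cases h1 : n < n0
      · exact Or.inr (Or.inr h1)
      · by_cases h2 : ∀ k : ℕ, y < (((F D)^[k] n : ℕ) : ℝ)
        · exact Or.inr (Or.inl ⟨hn.1, by exact_mod_cast hn.2, h2⟩)
        · push Not at h2
          obtain ⟨k, hk⟩ := h2
          exact Or.inl ⟨hn.1, hn.2, k, hk.trans (hn0 n (by omega))⟩
    have hlower : N ≤ Good.ncard + (Bad.ncard + n0) := by
      have h1 := Set.ncard_le_ncard hcover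
        ((hfinAll.subset hGsub).union (hBfin.union (Set.finite_Iio n0)))
      rw [hcardAll] at h1
      have h2 := Set.ncard_union_le Good (Bad ∪ Set.Iio n0)
      have h3 := Set.ncard_union_le Bad (Set.Iio n0)
      have h4 : (Set.Iio n0).ncard = n0 := by
        rw [← Finset.coe_Iio, Set.ncard_coe_finset, Nat.card_Iio]
      omega
    have hb' := hb N y (by exact_mod_cast hNpos) hy1
    rw [← hBad] at hb'
    have hn0N : (n0 : ℝ) / N < ε / 2 := by
      have h1 : (N0 : ℝ) < N := by exact_mod_cast (by omega : N0 < N)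
      have h2 : 2 * (n0 : ℝ) / ε < N := by linarith
      rw [div_lt_iff₀ hε] at h2
      rw [div_lt_div_iff₀ hNR (by norm_num)]
      linarith
    have hupR : (Good.ncard : ℝ) ≤ N := by exact_mod_cast hupper
    have hloR : (N : ℝ) ≤ Good.ncard + (Bad.ncard + n0) := by exact_mod_cast hlower
    rw [Real.dist_eq, abs_lt]
    constructor
    · have h1 : (1 : ℝ) - (Good.ncard : ℝ) / N ≤ (Bad.ncard : ℝ) / N + n0 / N := by
        rw [← add_div, one_sub_div hNR.ne']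
        apply div_le_div_of_nonneg_right _ hNR.le
        linarith
      have h2 : (Bad.ncard : ℝ) / N ≤ C / y ^ (1 / (30 * D * Real.log D)) := by
        rw [div_le_iff₀ hNR]
        refine hb'.trans (le_of_eq (by ring))
      linarith
    · have h1 : (Good.ncard : ℝ) / N ≤ 1 := by rw [div_le_one hNR]; exact hupR
      linarith

end Pool.Agent.Results.MP_5317dd_nt.PowerSaving
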